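import Pool.Agent.W184.ZB.Defs
import Pool.Agent.W184.ZB.UNIONC
import Pool.Agent.W184.ZB.FRACC
import Pool.Agent.W184.ZB.MASSC
import Pool.Agent.W184.ZB.NUM
import Pool.Agent.W184.ZB.FIN

set_option autoImplicit false

/-!
MP_34e428_co: the zombie number of the toroidal `n × n` grid is at most `100 n²`, in particular it
is `O(n²)`.
-/

open Pool.Agent.W184.ZB

theorem Pool.Agent.Results.MP_34e428_co.QuadraticUpper.result :
    ∀ n : ℕ, 3 ≤ n →
      (∀ k : ℕ, (100 : ℝ) * n ^ 2 ≤ k → sProb (torus n) k ≤ 1 / 2) ∧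
      (zombieNumber (torus n) : ℝ) ≤ 100 * n ^ 2 :=
  fun n hn => FIN.main UNIONC.pf (MASSC.pf FRACC.pf) NUM.pf n hn
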